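import Pool.Agent.Helper63.PG.Basic

set_option autoImplicit false

namespace Pool.Agent.Helper80.PG

open Pool.Agent.Helper63.PG

variable {V : Type*}

theorem hCLQ {G : SimpleGraph V} {T U : Set V} {π : V → V → ℕ} (hP : PRule G T U π)
    (hs : ∀ u ∈ U, ∃ t ∈ T, G.Adj t u) (Q : Finset V) (hne : Q.Nonempty) (hU : ∀ u ∈ Q, u ∈ U)
    (hQ : ∀ u ∈ Q, ∀ v ∈ Q, u ≠ v → (Gam G T U).Adj u v) : ∃ t ∈ T, ∀ u ∈ Q, G.Adj t u := by
  classical
  induction Q using Finset.strongInduction with
  | H Q ih =>
    obtain ⟨a, ha⟩ := hne
    by_cases h1 : ∃ b ∈ Q, b ≠ a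
    · obtain ⟨b, hb, hba⟩ := h1
      have hab := (hQ b hb a ha hba).2.2
      by_cases h2 : ∃ c ∈ Q, c ≠ a ∧ c ≠ b
      · obtain ⟨c, hc, hca, hcb⟩ := h2
        have hA : Q.erase a ⊂ Q := Finset.erase_ssubset ha
        have hB : Q.erase b ⊂ Q := Finset.erase_ssubset hb
        obtain ⟨s, hsT, hsQ⟩ := ih (Q.erase a) hA ⟨b, Finset.mem_erase.2 ⟨hba, hb⟩⟩
          (fun u hu => hU u (Finset.mem_of_mem_erase hu))
          (fun u hu v hv => hQ u (Finset.mem_of_mem_erase hu) v (Finset.mem_of_mem_erase hv))
        obtain ⟨t, htT, htQ⟩ := ih (Q.erase b) hB ⟨a, Finset.mem_erase.2 ⟨hba.symm, ha⟩⟩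
          (fun u hu => hU u (Finset.mem_of_mem_erase hu))
          (fun u hu v hv => hQ u (Finset.mem_of_mem_erase hu) v (Finset.mem_of_mem_erase hv))
        by_cases hsa : G.Adj s a
        · refine ⟨s, hsT, fun u hu => ?_⟩
          by_cases hua : u = a
          · rw [hua]; exact hsa
          · exact hsQ u (Finset.mem_erase.2 ⟨hua, hu⟩)
        by_cases htb : G.Adj t b
        · refine ⟨t, htT, fun u hu => ?_⟩
          by_cases hub : u = b
          · rw [hub]; exact htb
          · exact htQ u (Finset.mem_erase.2 ⟨hub, hu⟩)
        exfalso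
        have hsb : G.Adj s b := hsQ b (Finset.mem_erase.2 ⟨hba, hb⟩)
        have hta : G.Adj t a := htQ a (Finset.mem_erase.2 ⟨hba.symm, ha⟩)
        have hsc : G.Adj s c := hsQ c (Finset.mem_erase.2 ⟨hca, hc⟩)
        have htc : G.Adj t c := htQ c (Finset.mem_erase.2 ⟨hcb, hc⟩)
        have hst : s ≠ t := by
          intro h
          exact hsa (h ▸ hta)
        have e0 := hP s hsT t htT hst (fun _ => c) 0 (IP.single G _)
          (fun i _ => hU c hc)
          (fun i hi => ⟨fun _ => by omega, fun _ => hsc⟩)
          (fun i hi => ⟨fun _ => by omega, fun _ => htc⟩)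
        have e1 := hP s hsT t htT hst (fun i => if i = 0 then b else a) 1
          (by
            intro i j hij hj
            have hi : i = 0 := by omega
            have hj1 : j = 1 := by omega
            subst hi
            subst hj1
            simp only [if_true, one_ne_zero, if_false]
            exact ⟨fun _ => trivial, fun _ => hab.1⟩)
          (by
            intro i hi
            by_cases h : i = 0
            · simp only [h, if_true]
              exact hU b hb
            · simp only [h, if_false]
              exact hU a ha)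
          (by
            intro i hi
            by_cases h : i = 0
            · simp only [h, if_true]
              exact ⟨fun _ => trivial, fun _ => hsb⟩
            · simp only [h, if_false]
              exact ⟨fun h' => absurd h' hsa, fun h' => absurd h' (by simp)⟩)
          (by
            intro i hi
            by_cases h : i = 0
            · simp only [h, if_true]
              exact ⟨fun h' => absurd h' htb, fun h' => absurd h' (by omega)⟩
            · simp only [h, if_false]
              exact ⟨fun _ => by omega, fun _ => hta⟩)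
        rw [← e0] at e1
        omega
      · push Not at h2
        obtain ⟨t, htT, htb, hta⟩ := hab.2
        refine ⟨t, htT, fun u hu => ?_⟩
        by_cases hua : u = a
        · rw [hua]; exact hta
        · rw [h2 u hu hua]; exact htb
    · push Not at h1
      obtain ⟨t, htT, hta⟩ := hs a (hU a ha)
      exact ⟨t, htT, fun u hu => by rw [h1 u hu]; exact hta⟩

end Pool.Agent.Helper80.PG
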